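import Mathlib

set_option autoImplicit false

/-!
The group of finitary automorphisms of the binary rooted tree. Vertices are lists of Booleans, the
parent of a vertex is its tail.
-/

namespace Pool.Agent.TH83.Branch

/-- the automorphism with portrait `p`, as a function -/
def fwd (p : List Bool → Bool) : List Bool → List Bool
  | [] => []
  | b :: w => (xor b (p w)) :: fwd p w

/-- its inverse -/
def bwd (p : List Bool → Bool) : List Bool → List Bool
  | [] => []
  | b :: w => (xor b (p (bwd p w))) :: bwd p w

theorem bwd_fwd (p : List Bool → Bool) (w : List Bool) : bwd p (fwd p w) = w := by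
  induction w with
  | nil => rfl
  | cons b w ih => simp [fwd, bwd, ih]

theorem fwd_bwd (p : List Bool → Bool) (w : List Bool) : fwd p (bwd p w) = w := by
  induction w with
  | nil => rfl
  | cons b w ih => simp [fwd, bwd, ih]

/-- the automorphism with portrait `p` -/
def F (p : List Bool → Bool) : Equiv.Perm (List Bool) where
  toFun := fwd p
  invFun := bwd p
  left_inv := bwd_fwd p
  right_inv := fwd_bwd p

@[simp] theorem F_nil (p : List Bool → Bool) : F p [] = [] := rfl

@[simp] theorem F_cons (p : List Bool → Bool) (b : Bool) (w : List Bool) :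
    F p (b :: w) = (xor b (p w)) :: F p w := rfl

@[simp] theorem F_length (p : List Bool → Bool) (w : List Bool) :
    (F p w).length = w.length := by
  induction w with
  | nil => rfl
  | cons b w ih => simp [ih]

@[simp] theorem F_tail (p : List Bool → Bool) (w : List Bool) :
    (F p w).tail = F p w.tail := by
  cases w <;> rfl

/-- The finitary automorphisms of the binary tree. -/
def G : Subgroup (Equiv.Perm (List Bool)) where
  carrier := {g | (∀ w, (g w).length = w.length) ∧ (∀ w, (g w).tail = g w.tail) ∧
    ∃ N, ∀ w : List Bool, N ≤ w.length → ∀ b, g (b :: w) = b :: g w}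
  mul_mem' := by
    rintro a b ⟨ha1, ha2, N, ha3⟩ ⟨hb1, hb2, M, hb3⟩
    refine ⟨fun w => by simp [ha1, hb1], fun w => by simp [ha2, hb2], max N M, fun w hw c => ?_⟩
    rw [Equiv.Perm.mul_apply, hb3 w (le_trans (le_max_right _ _) hw), ha3 (b w)
      (by rw [hb1]; exact le_trans (le_max_left _ _) hw), Equiv.Perm.mul_apply]
  one_mem' := ⟨fun w => rfl, fun w => rfl, 0, fun w _ b => rfl⟩
  inv_mem' := by
    rintro a ⟨ha1, ha2, N, ha3⟩
    have h1 : ∀ w, (a⁻¹ w).length = w.length := fun w => by
      rw [← ha1 (a⁻¹ w)]; simp
    refine ⟨h1, fun w => ?_, N, fun w hw c => ?_⟩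
    · apply a.injective
      rw [← ha2]
      simp
    · apply a.injective
      rw [ha3 _ (by rw [h1]; exact hw)]
      simp

theorem length_G (g : G) (w : List Bool) : ((g : Equiv.Perm (List Bool)) w).length = w.length :=
  g.2.1 w

theorem tail_G (g : G) (w : List Bool) :
    ((g : Equiv.Perm (List Bool)) w).tail = (g : Equiv.Perm (List Bool)) w.tail :=
  g.2.2.1 w

/-- the portrait of an element -/
def sw (g : G) (w : List Bool) : Bool := ((g : Equiv.Perm (List Bool)) (false :: w)).headD false

theorem G_false (g : G) (w : List Bool) :
    (g : Equiv.Perm (List Bool)) (false :: w) = sw g w :: (g : Equiv.Perm (List Bool)) w := by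
  have h1 := length_G g (false :: w)
  have h2 := tail_G g (false :: w)
  unfold sw
  cases h : (g : Equiv.Perm (List Bool)) (false :: w) with
  | nil => rw [h] at h1; simp at h1
  | cons c u =>
    rw [h] at h2
    simp only [List.tail_cons] at h2
    simp [h2]

theorem G_cons (g : G) (b : Bool) (w : List Bool) :
    (g : Equiv.Perm (List Bool)) (b :: w) = (xor b (sw g w)) :: (g : Equiv.Perm (List Bool)) w := by
  cases b with
  | false => rw [G_false]; simp
  | true =>
    have h1 := length_G g (true :: w)
    have h2 := tail_G g (true :: w)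
    have h3 : (g : Equiv.Perm (List Bool)) (true :: w) ≠ (g : Equiv.Perm (List Bool)) (false :: w) :=
      fun h => by simpa using (g : Equiv.Perm (List Bool)).injective h
    rw [G_false] at h3
    cases h : (g : Equiv.Perm (List Bool)) (true :: w) with
    | nil => rw [h] at h1; simp at h1
    | cons c u =>
      rw [h] at h2 h3
      simp only [List.tail_cons] at h2
      rw [h2] at h3 ⊢
      have : c ≠ sw g w := fun h => h3 (by rw [h])
      cases c <;> cases hs : sw g w <;> simp_all

theorem G_nil (g : G) : (g : Equiv.Perm (List Bool)) [] = [] := by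
  have h1 := length_G g []
  exact List.length_eq_zero_iff.mp (by simpa using h1)

theorem sw_mul (g h : G) (w : List Bool) :
    sw (g * h) w = xor (sw h w) (sw g ((h : Equiv.Perm (List Bool)) w)) := by
  have h1 := G_cons (g * h) false w
  rw [Subgroup.coe_mul, Equiv.Perm.mul_apply, Equiv.Perm.mul_apply, G_cons h, G_cons g] at h1
  simp only [Bool.false_xor, List.cons.injEq, and_true] at h1
  exact h1.symm

theorem sw_finite (g : G) : {w | sw g w = true}.Finite := by
  obtain ⟨N, hN⟩ := g.2.2.2
  apply (List.finite_length_lt Bool N).subset
  intro w hw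
  by_contra h
  have h2 := hN w (by simpa using h) false
  rw [G_cons] at h2
  simp only [Set.mem_ofPred_eq] at hw
  simp [hw] at h2

/-- the automorphism with switches exactly at the vertices of the finite set `S` -/
def FS (S : Finset (List Bool)) : G :=
  ⟨F (fun u => decide (u ∈ S)), fun w => F_length _ w, fun w => F_tail _ w, S.sup List.length + 1,
    fun w hw b => by
      have : w ∉ S := fun h => by
        have := Finset.le_sup (f := List.length) h
        omega
      simp [this]⟩

theorem FS_cons (S : Finset (List Bool)) (b : Bool) (w : List Bool) :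
    (FS S : Equiv.Perm (List Bool)) (b :: w) =
      (xor b (decide (w ∈ S))) :: (FS S : Equiv.Perm (List Bool)) w := rfl

theorem FS_nil (S : Finset (List Bool)) : (FS S : Equiv.Perm (List Bool)) [] = [] := rfl

theorem sw_FS (S : Finset (List Bool)) (w : List Bool) : sw (FS S) w = decide (w ∈ S) := by
  have h := G_cons (FS S) false w
  rw [FS_cons] at h
  simp only [Bool.false_xor, List.cons.injEq, and_true] at h
  exact h.symm

theorem ext_sw {g h : G} (H : ∀ w, sw g w = sw h w) : g = h := by
  apply Subtype.ext
  apply Equiv.ext
  intro w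
  induction w with
  | nil => rw [G_nil, G_nil]
  | cons b w ih => rw [G_cons, G_cons, ih, H]

theorem exists_FS (g : G) : g = FS (sw_finite g).toFinset := by
  apply ext_sw
  intro w
  rw [sw_FS]
  cases h : sw g w <;> simp [h]

theorem FS_fix_of_le (S : Finset (List Bool)) (n : ℕ) (hS : ∀ u ∈ S, n ≤ u.length) (w : List Bool)
    (hw : w.length ≤ n) : (FS S : Equiv.Perm (List Bool)) w = w := by
  induction w with
  | nil => rfl
  | cons b w ih =>
    simp only [List.length_cons] at hw
    have h : w ∉ S := fun h => by have := hS w h; omega
    rw [FS_cons, ih (by omega)]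
    simp [h]

theorem FS_single_fix (u w : List Bool) (h : ∀ k : ℕ, List.tail^[k] w ≠ u) :
    (FS {u} : Equiv.Perm (List Bool)) w = w := by
  induction w with
  | nil => rfl
  | cons b w ih =>
    rw [FS_cons, ih (fun k => by simpa using h (k + 1))]
    have : w ≠ u := by simpa using h 1
    simp [this]

theorem FS_erase (S : Finset (List Bool)) (u : List Bool) (hu : u ∈ S)
    (hmax : ∀ v ∈ S, v.length ≤ u.length) : FS S = FS (S.erase u) * FS {u} := by
  apply ext_sw
  intro w
  rw [sw_mul, sw_FS, sw_FS, sw_FS]
  by_cases hw : w.length ≤ u.length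
  · rw [FS_fix_of_le {u} u.length (by simp) w hw]
    by_cases h : w = u
    · subst h
      simp [hu]
    · simp [h]
  · have h1 : w ∉ S := fun h => hw (hmax w h)
    have h2 : w ≠ u := fun h => hw (by rw [h])
    have h3 : (FS {u} : Equiv.Perm (List Bool)) w ∉ S.erase u := by
      intro h
      have := hmax _ (Finset.mem_of_mem_erase h)
      rw [length_G] at this
      exact hw this
    simp [h1, h2, h3]

/-- generators of the rigid stabiliser of level `n` -/
def rgen (n : ℕ) : Set G :=
  {g : G | ∃ v : List Bool, v.length = n ∧
    ∀ w : List Bool, (∀ k : ℕ, List.tail^[k] w ≠ v) → g • w = w}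

theorem length_iter (k : ℕ) (w : List Bool) : (List.tail^[k] w).length = w.length - k := by
  induction k generalizing w with
  | zero => rfl
  | succ k ih => rw [Function.iterate_succ_apply, ih, List.length_tail]; omega

theorem FS_single_mem (n : ℕ) (u : List Bool) (hu : n ≤ u.length) : FS {u} ∈ rgen n := by
  refine ⟨List.tail^[u.length - n] u, ?_, ?_⟩
  · rw [length_iter]; omega
  · intro w hw
    change (FS {u} : Equiv.Perm (List Bool)) w = w
    apply FS_single_fix
    intro k hk
    apply hw (u.length - n + k)
    rw [Function.iterate_add_apply, hk]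

theorem FS_mem (n : ℕ) (S : Finset (List Bool)) (hS : ∀ u ∈ S, n ≤ u.length) :
    FS S ∈ Subgroup.closure (rgen n) := by
  induction h : S.card generalizing S with
  | zero =>
    rw [Finset.card_eq_zero] at h
    subst h
    have : FS ∅ = 1 := by
      apply Subtype.ext
      apply Equiv.ext
      intro w
      exact FS_fix_of_le ∅ w.length (by simp) w le_rfl
    rw [this]
    exact one_mem _
  | succ k ih =>
    have hne : S.Nonempty := by
      rw [← Finset.card_pos]; omega
    obtain ⟨u, hu, hmax⟩ := Finset.exists_max_image S List.length hne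
    rw [FS_erase S u hu hmax]
    apply mul_mem
    · apply ih
      · intro v hv
        exact hS v (Finset.mem_of_mem_erase hv)
      · rw [Finset.card_erase_of_mem hu]; omega
    · exact Subgroup.subset_closure (FS_single_mem n u (hS u hu))

/-- the action on the words of length at most `n` -/
def rho (n : ℕ) : G →* Equiv.Perm {w : List Bool // w.length ≤ n} where
  toFun g := (g : Equiv.Perm (List Bool)).subtypePerm (fun w => by rw [length_G])
  map_one' := by
    ext w
    rfl
  map_mul' a b := by
    ext w
    rfl

theorem rho_ker (n : ℕ) (g : G) :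
    g ∈ (rho n).ker ↔ ∀ w : List Bool, w.length ≤ n → (g : Equiv.Perm (List Bool)) w = w := by
  rw [MonoidHom.mem_ker]
  constructor
  · intro h w hw
    have := congrArg (fun σ : Equiv.Perm {w : List Bool // w.length ≤ n} => (σ ⟨w, hw⟩ : List Bool)) h
    exact this
  · intro h
    apply Equiv.ext
    intro w
    apply Subtype.ext
    exact h w.1 w.2

instance (n : ℕ) : Finite {w : List Bool // w.length ≤ n} :=
  (List.finite_length_le Bool n).to_subtype

theorem rist_finiteIndex (n : ℕ) : (Subgroup.closure (rgen n)).FiniteIndex := by
  have : (rho n).ker.FiniteIndex := inferInstance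
  apply Subgroup.finiteIndex_of_le (H := (rho n).ker)
  intro g hg
  rw [rho_ker] at hg
  rw [exists_FS g]
  apply FS_mem
  intro u hu
  by_contra hlt
  have h1 := hg (false :: u) (by simp; omega)
  rw [G_cons] at h1
  simp at hu
  simp [hu] at h1

open Classical in
/-- the summand -/
noncomputable def trm (A : Set ℕ) (g : G) (w : List Bool) : ZMod 2 :=
  if w.length ∈ A ∧ sw g w = true then 1 else 0

theorem trm_mul (A : Set ℕ) (g h : G) (w : List Bool) :
    trm A (g * h) w = trm A h w + trm A g ((h : Equiv.Perm (List Bool)) w) := by
  unfold trm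
  rw [sw_mul, length_G]
  by_cases hA : w.length ∈ A
  · cases h1 : sw h w <;> cases h2 : sw g ((h : Equiv.Perm (List Bool)) w) <;> simp [hA]
    decide
  · simp [hA]

theorem trm_finite (A : Set ℕ) (g : G) : (Function.support (trm A g)).Finite := by
  apply (sw_finite g).subset
  intro w hw
  simp only [Function.mem_support, trm] at hw
  simp only [Set.mem_ofPred_eq]
  by_contra h
  simp [h] at hw

/-- sign sum over the levels in `A` -/
noncomputable def chiFun (A : Set ℕ) (g : G) : ZMod 2 := ∑ᶠ w : List Bool, trm A g w

theorem chiFun_mul (A : Set ℕ) (g h : G) : chiFun A (g * h) = chiFun A g + chiFun A h := by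
  unfold chiFun
  have h1 : (fun w => trm A (g * h) w) =
      fun w => trm A h w + trm A g ((h : Equiv.Perm (List Bool)) w) := funext (trm_mul A g h)
  rw [h1, finsum_add_distrib (trm_finite A h), add_comm]
  · congr 1
    exact finsum_comp_equiv (h : Equiv.Perm (List Bool))
  · have := (trm_finite A g).preimage ((h : Equiv.Perm (List Bool)).injective.injOn
      (s := (h : Equiv.Perm (List Bool)) ⁻¹' Function.support (trm A g)))
    exact this

/-- sign sum over the levels in `A`, a homomorphism -/
noncomputable def chi (A : Set ℕ) : G →* Multiplicative (ZMod 2) :=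
  MonoidHom.mk' (fun g => Multiplicative.ofAdd (chiFun A g)) (fun a b => by
    rw [chiFun_mul]; rfl)

theorem chi_single (A : Set ℕ) (u : List Bool) (hu : u.length ∈ A) : chi A (FS {u}) ≠ 1 := by
  have : chiFun A (FS {u}) = 1 := by
    unfold chiFun
    rw [finsum_eq_single _ u]
    · simp [trm, hu, sw_FS]
    · intro w hw
      simp [trm, sw_FS, hw]
  intro h
  have h2 : chiFun A (FS {u}) = 0 := h
  rw [this] at h2
  exact absurd h2 (by decide)

theorem chi_single' (A : Set ℕ) (u : List Bool) (hu : u.length ∉ A) : chi A (FS {u}) = 1 := by
  have : chiFun A (FS {u}) = 0 := by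
    unfold chiFun
    rw [finsum_eq_zero_of_forall_eq_zero]
    intro w
    by_cases hw : w = u
    · subst hw
      simp [trm, hu]
    · simp [trm, sw_FS, hw]
  exact congrArg Multiplicative.ofAdd this

/-- the normal T-sequences -/
noncomputable def M (a i : ℕ) : Subgroup G := ((rho i).prod (chi {n | ∃ k, n = Nat.pair a k})).ker

theorem mem_M (a i : ℕ) (g : G) : g ∈ M a i ↔
    (∀ w : List Bool, w.length ≤ i → (g : Equiv.Perm (List Bool)) w = w) ∧
      chi {n | ∃ k, n = Nat.pair a k} g = 1 := by
  unfold M
  rw [MonoidHom.mem_ker, MonoidHom.prod_apply, Prod.mk_eq_one, ← MonoidHom.mem_ker, rho_ker]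

instance : Finite (Multiplicative (ZMod 2)) := inferInstanceAs (Finite (ZMod 2))

theorem M_spec (a : ℕ) : Antitone (M a) ∧ (∀ i : ℕ, (M a i).Normal ∧ (M a i).FiniteIndex) ∧
    (⨅ i : ℕ, M a i) = ⊥ := by
  refine ⟨?_, ?_, ?_⟩
  · intro i j hij g hg
    rw [mem_M] at hg ⊢
    exact ⟨fun w hw => hg.1 w (hw.trans hij), hg.2⟩
  · intro i
    refine ⟨MonoidHom.normal_ker _, ?_⟩
    unfold M
    infer_instance
  · rw [eq_bot_iff]
    intro g hg
    rw [Subgroup.mem_iInf] at hg
    rw [Subgroup.mem_bot]
    apply Subtype.ext
    apply Equiv.ext
    intro w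
    exact ((mem_M a w.length g).1 (hg w.length)).1 w le_rfl

theorem M_ineq (a b : ℕ) (hab : a ≠ b) : ¬ ∀ i : ℕ, ∃ j : ℕ, M b j ≤ M a i := by
  intro h
  obtain ⟨j, hj⟩ := h 0
  have h1 : j ≤ Nat.pair a j := Nat.right_le_pair a j
  have h2 : FS {List.replicate (Nat.pair a j) false} ∈ M b j := by
    rw [mem_M]
    refine ⟨?_, ?_⟩
    · intro w hw
      exact FS_fix_of_le _ (Nat.pair a j) (by simp) w (hw.trans h1)
    · apply chi_single'
      rintro ⟨k, hk⟩
      rw [List.length_replicate] at hk
      have := congrArg (fun n => (Nat.unpair n).1) hk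
      simp at this
      exact hab this
  have h3 := ((mem_M a 0 _).1 (hj h2)).2
  refine chi_single {n | ∃ k, n = Nat.pair a k} (List.replicate (Nat.pair a j) false) ?_ h3
  exact ⟨j, by simp⟩

theorem transitive (v w : List Bool) (h : v.length = w.length) :
    ∃ p : List Bool → Bool, (∀ u : List Bool, v.length ≤ u.length → p u = false) ∧ F p v = w := by
  induction v generalizing w with
  | nil =>
    cases w with
    | nil => exact ⟨fun _ => false, fun _ _ => rfl, rfl⟩
    | cons c w => simp at h
  | cons b v ih =>
    cases w with
    | nil => simp at h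
    | cons c w =>
      obtain ⟨p, hp1, hp2⟩ := ih w (by simpa using h)
      refine ⟨fun u => if u.length < v.length then p u else
        if u.length = v.length then xor b c else false, ?_, ?_⟩
      · intro u hu
        simp only [List.length_cons] at hu
        change (if u.length < v.length then p u else
          if u.length = v.length then xor b c else false) = false
        rw [if_neg (by omega), if_neg (by omega)]
      · have key : ∀ x : List Bool, x.length ≤ v.length → F (fun u => if u.length < v.length then p u
            else if u.length = v.length then xor b c else false) x = F p x := by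
          intro x
          induction x with
          | nil => intro _; rfl
          | cons d x ihx =>
            intro hx
            simp only [List.length_cons] at hx
            rw [F_cons, F_cons, ihx (by omega), if_pos (by omega)]
        rw [F_cons, key v le_rfl, hp2, if_neg (by omega), if_pos rfl]
        cases b <;> cases c <;> rfl

end Pool.Agent.TH83.Branch
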